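import Pool.Agent.H83.F.C5
import Pool.Agent.H83.F.D2
import Pool.Agent.H83.F.D3
import Pool.Agent.H83.F.D4
import Pool.Agent.H83.F.D5

/-!
There is a model of ZFC in which `add(𝒩) = cof(𝒩)`, there is a monotone Borel hull operation on
the Lebesgue null sets, and there is no monotone Borel hull operation on the Lebesgue measurable
sets.

The model is a countable generic model over a finite support iteration of ccc forcing notions of
length `ω₂` (amoeba forcing, countable forcing notions, and forcing notions that produce an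
uncountable discrete family of points from `ω₁`-sequences of closed sets).
-/

namespace Pool.Agent.Results.MP_e5f4bd_lc.ConsistentNoMeasurableHull

open Pool.Agent.H83.F

/-- There is a model `(M, E)` of ZFC (with set `w` of natural numbers and real field
`(R, A, T, L)`) in which `add(𝒩) = cof(𝒩)`, there is a monotone Borel hull operation on the null
subsets of `R`, and there is no monotone Borel hull operation on the Lebesgue measurable subsets
of `R`. -/
theorem result : ∃ (M : Type) (E : M → M → Prop), IsZFCModel E ∧ ∃ w R A T L : M,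
    IsOmega E w ∧ IsRealField E R A T L ∧
    (∃ κ, IsAddNull E w R A L κ ∧ IsCofNull E w R A L κ) ∧
    (∃ ψ, IsMonoHull E w R A L (IsNull E w R A L) ψ) ∧
    ¬ ∃ ψ, IsMonoHull E w R A L (IsMeas E w R A L) ψ := by
  have hcount : (T2 ∪ (T3 ∪ (T4 ∪ T5))).Countable :=
    T2_countable.union (T3_countable.union (T4_countable.union T5_countable))
  obtain ⟨T, hT⟩ : ∃ T : ℕ → Set ℕ, T2 ∪ (T3 ∪ (T4 ∪ T5)) ⊆ Set.range T := by
    rcases (T2 ∪ (T3 ∪ (T4 ∪ T5))).eq_empty_or_nonempty with h | h
    · exact ⟨fun _ => ∅, by rw [h]; exact Set.empty_subset _⟩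
    · obtain ⟨f, hf⟩ := hcount.exists_eq_range h
      exact ⟨f, hf.subset⟩
  obtain ⟨N⟩ := exists_nice T
  have hT2 : T2 ⊆ Set.range T := Set.subset_union_left.trans hT
  have hT3 : T3 ⊆ Set.range T :=
    (Set.subset_union_left.trans Set.subset_union_right).trans hT
  have hT4 : T4 ⊆ Set.range T :=
    ((Set.subset_union_left.trans Set.subset_union_right).trans Set.subset_union_right).trans hT
  have hT5 : T5 ⊆ Set.range T :=
    ((Set.subset_union_right.trans Set.subset_union_right).trans Set.subset_union_right).trans hT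
  obtain ⟨R, A, T', L, hR⟩ := target_d1 _ N (T1_sub_T2.trans hT2)
  have h2 := target_d2 _ N hT2 R A T' L hR
  have h2' := target_d2' _ N hT2
  have h3a := target_d3a _ N hT3 R A T' L hR
  have h3b := target_d3b _ N hT3 R A T' L hR h2
  have h3c := target_d3c _ N hT3 R A T' L hR h2 h2'
  have h4 := target_d4 _ N hT4 R A T' L hR
  have h5 := target_d5 _ N hT5 R A T' L hR h2 h2' h3a h4
  refine ⟨N.M, N.E, N.zfc, N.om, R, A, T', L, ?_, hR.field, h3c, h3b, h5⟩
  -- `N.om` is the set of natural numbers
  refine ⟨⟨N.nat 0, (N.E_om _).2 ⟨0, rfl⟩, fun z hz => ?_⟩, fun y hy => ?_, fun y hy => ?_⟩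
  · obtain ⟨m, hm, _⟩ := (N.E_nat z 0).1 hz
    exact absurd hm (Nat.not_lt_zero m)
  · obtain ⟨n, rfl⟩ := (N.E_om y).1 hy
    exact ⟨N.nat (n + 1), (N.E_om _).2 ⟨n + 1, rfl⟩, Nice.succ_iff.2 rfl⟩
  · obtain ⟨n, rfl⟩ := (N.E_om y).1 hy
    rcases n with _ | n
    · left
      intro z hz
      obtain ⟨m, hm, _⟩ := (N.E_nat z 0).1 hz
      exact absurd hm (Nat.not_lt_zero m)
    · exact Or.inr ⟨N.nat n, (N.E_om _).2 ⟨n, rfl⟩, Nice.succ_iff.2 rfl⟩

end Pool.Agent.Results.MP_e5f4bd_lc.ConsistentNoMeasurableHull
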