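import Pool.Agent.H83.HullTower

/-!
If `cof(𝒩) = ℵ₁` then there is a monotone `Gδ` (in particular Borel) hull operation on the
`σ`-algebra of Lebesgue measurable subsets of the line.
-/

open MeasureTheory Set Filter Topology

namespace Pool.Agent.Results.MP_e5f4bd_lc.GdeltaHullCofAlephOne

/-- `cof(𝒩)`: the least cardinality of a family `𝓑` of Lebesgue null subsets of `ℝ` such that
every Lebesgue null set is contained in some member of `𝓑`. -/
noncomputable def cofNull : Cardinal.{0} :=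
  sInf {κ : Cardinal.{0} | ∃ 𝓑 : Set (Set ℝ), Cardinal.mk 𝓑 = κ ∧ (∀ B ∈ 𝓑, volume B = 0) ∧
    ∀ A : Set ℝ, volume A = 0 → ∃ B ∈ 𝓑, A ⊆ B}

/-- `ψ` is a monotone hull operation, with respect to the Lebesgue null sets, on the family `𝓕`
of subsets of `ℝ`, with all hulls in the class `𝓗`. -/
structure IsMonotoneHull (𝓕 : Set (Set ℝ)) (𝓗 : Set ℝ → Prop) (ψ : Set ℝ → Set ℝ) : Prop where
  mem_class : ∀ A ∈ 𝓕, 𝓗 (ψ A)
  subset_hull : ∀ A ∈ 𝓕, A ⊆ ψ A
  null_diff : ∀ A ∈ 𝓕, volume (ψ A \ A) = 0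
  mono : ∀ A ∈ 𝓕, ∀ B ∈ 𝓕, A ⊆ B → ψ A ⊆ ψ B

open Pool.Agent.H83.Hull

/-- The combinatorial core: a cofinal family of null sets indexed by a well-order with countable
initial segments in which every index of the dense family occurs cofinally often. -/
lemma core {W T : Type} [LinearOrder W] [WellFoundedLT W] (hW : ∀ w : W, (Iic w).Countable)
    (hbdd : ∀ f : ℕ → W, ∃ a : W, ∀ n, f n ≤ a)
    {B : W → Set ℝ} (hB : ∀ w, volume (B w) = 0)
    (hcof : ∀ A : Set ℝ, volume A = 0 → ∃ w, A ⊆ B w)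
    {D : T → Set ℝ} (hDc : ∀ t, IsClosed (D t))
    (hD : ∀ E : Set ℝ, IsClosed E → volume E ≠ 0 → ∃ t, D t ⊆ E ∧ volume (D t) ≠ 0)
    (e : W → T) (he : ∀ t : T, ∀ a : W, ∃ w, a ≤ w ∧ e w = t) :
    ∃ ψ : Set ℝ → Set ℝ, IsMonotoneHull {A | NullMeasurableSet A volume} IsGδ ψ := by
  have hIio : ∀ w : W, (Iio w).Countable := fun w => (hW w).mono Iio_subset_Iic_self
  have hN : ∀ w, volume ((⋃ v : W, ⋃ _ : v < w, tower B v) ∪ B w) = 0 := tower_null hIio hB
  set N : W → Set ℝ := tower B with hNdef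
  set O : W → Set ℝ := fun w => (D (e w))ᶜ with hO
  have hNG : ∀ w, IsGδ (N w) := fun w => by
    rw [hNdef, tower_eq]; exact (gd_spec (hN w)).2.1
  have hN0 : ∀ w, volume (N w) = 0 := fun w => by
    rw [hNdef, tower_eq]; exact (gd_spec (hN w)).2.2
  have hBN : ∀ w, B w ⊆ N w := fun w => by
    rw [hNdef, tower_eq]; exact subset_union_right.trans (gd_spec (hN w)).1
  have hmono : Monotone N := by
    intro v w hvw
    rcases hvw.eq_or_lt with rfl | h
    · exact le_rfl
    · have h1 : N v ⊆ ⋃ v : W, ⋃ _ : v < w, tower B v := by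
        intro x hx
        simp only [mem_iUnion]
        exact ⟨v, h, hx⟩
      have h2 : N w = gd ((⋃ v : W, ⋃ _ : v < w, tower B v) ∪ B w) := tower_eq B w
      rw [h2]
      exact h1.trans (subset_union_left.trans (gd_spec (hN w)).1)
  -- existence of good indices for measurable sets
  have hne : ∀ A : Set ℝ, NullMeasurableSet A volume →
      {a : W | Jset O N a A ⊆ A ∪ N a}.Nonempty := by
    intro A hA
    obtain ⟨I, hIc, hIA, hI⟩ := exhaustion hDc hD hA
    -- choose an index for each member of `I`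
    have hch : ∀ t : T, volume (D t ∩ A) = 0 → ∃ w, e w = t ∧ D t ∩ A ⊆ N w := by
      intro t ht
      obtain ⟨a, ha⟩ := hcof _ ht
      obtain ⟨w, haw, hw⟩ := he t a
      exact ⟨w, hw, ha.trans ((hBN a).trans (hmono haw))⟩
    obtain ⟨b, hb⟩ := hcof _ hI
    -- a bound for the chosen indices
    obtain ⟨a, haI⟩ : ∃ a : W, ∀ t ∈ I, ∃ w, w ≤ a ∧ e w = t ∧ D t ∩ A ⊆ N w := by
      rcases I.eq_empty_or_nonempty with hIe | hIne
      · exact ⟨b, by simp [hIe]⟩
      · obtain ⟨f, hf⟩ := hIc.exists_eq_range hIne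
        have hf' : ∀ n, ∃ w, e w = f n ∧ D (f n) ∩ A ⊆ N w := fun n =>
          hch _ (hIA _ (hf ▸ mem_range_self n))
        choose g hg using hf'
        obtain ⟨a, ha⟩ := hbdd g
        refine ⟨a, ?_⟩
        intro t ht
        rw [hf] at ht
        obtain ⟨n, rfl⟩ := ht
        exact ⟨g n, ha n, hg n⟩
    refine ⟨max a b, ?_⟩
    intro x hx
    by_cases hxA : x ∈ A
    · exact Or.inl hxA
    right
    by_cases hxI : x ∈ ⋃ t ∈ I, D t
    · simp only [mem_iUnion] at hxI
      obtain ⟨t, ht, hxt⟩ := hxI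
      obtain ⟨w, hwa, hwt, hwN⟩ := haI t ht
      have hsub : A ⊆ O w ∪ N w := by
        intro y hy
        by_cases hyt : y ∈ D t
        · exact Or.inr (hwN ⟨hyt, hy⟩)
        · exact Or.inl (by rw [hO]; simp only [hwt]; exact hyt)
      have hxw : x ∈ O w ∪ N w := by
        have := mem_iInter₂.1 hx w ⟨hwa.trans (le_max_left _ _), hsub⟩
        exact this
      rcases hxw with hxw | hxw
      · exfalso
        rw [hO] at hxw
        simp only [hwt] at hxw
        exact hxw hxt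
      · exact hmono (hwa.trans (le_max_left _ _)) hxw
    · exact (hmono (le_max_right a b)) (hBN b (hb ⟨hxA, hxI⟩))
  refine ⟨hull O N, ?_, ?_, ?_, ?_⟩
  · intro A hA
    obtain ⟨a, -, h2⟩ := hull_spec O N (hne A hA)
    rw [h2]
    refine IsGδ.biInter ((hW a).mono fun w hw => hw.1) ?_
    intro w _
    exact ((hDc _).isOpen_compl.isGδ).union (hNG w)
  · intro A hA
    obtain ⟨a, -, h2⟩ := hull_spec O N (hne A hA)
    rw [h2]
    exact subset_Jset O N a A
  · intro A hA
    obtain ⟨a, h1, h2⟩ := hull_spec O N (hne A hA)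
    rw [h2]
    refine measure_mono_null ?_ (hN0 a)
    rintro x ⟨hx, hxA⟩
    exact (h1 hx).resolve_left hxA
  · intro A hA A' hA' h
    exact hull_mono O N hmono (hne A hA) (hne A' hA') h

/-- If `cof(𝒩) = ℵ₁`, then there is a monotone hull operation with `Gδ` values on the family of
all Lebesgue measurable subsets of `ℝ`. -/
theorem result (h : cofNull = Cardinal.aleph 1) :
    ∃ ψ : Set ℝ → Set ℝ, IsMonotoneHull {A : Set ℝ | NullMeasurableSet A volume} IsGδ ψ := by
  obtain ⟨𝓑, h𝓑c, h𝓑n, h𝓑⟩ : cofNull ∈ {κ : Cardinal.{0} | ∃ 𝓑 : Set (Set ℝ),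
      Cardinal.mk 𝓑 = κ ∧ (∀ B ∈ 𝓑, volume B = 0) ∧
        ∀ A : Set ℝ, volume A = 0 → ∃ B ∈ 𝓑, A ⊆ B} := by
    apply csInf_mem
    exact ⟨_, {B | volume B = 0}, rfl, fun B hB => hB, fun A hA => ⟨A, hA, subset_rfl⟩⟩
  rw [h] at h𝓑c
  let W : Type := (Cardinal.aleph 1).ord.ToType
  have hWcard : Cardinal.mk W = Cardinal.aleph 1 := Cardinal.mk_ord_toType _
  obtain ⟨f⟩ : Nonempty (W ≃ 𝓑) := Cardinal.eq.1 (by rw [hWcard, h𝓑c])
  obtain ⟨D, hDc, hD⟩ := dense_family (fun w : W => (f w : Set ℝ))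
    (fun A hA => by
      obtain ⟨B, hB, hAB⟩ := h𝓑 A hA
      exact ⟨f.symm ⟨B, hB⟩, by simpa using hAB⟩)
    (fun w => h𝓑n _ (f w).2)
  have hIio : ∀ w : W, (Iio w).Countable := by
    intro w
    rw [← Cardinal.le_aleph0_iff_set_countable]
    have h1 : Cardinal.mk (Iio w) < Cardinal.aleph 1 := Cardinal.mk_Iio_toType_ord_lt w
    exact Order.lt_succ_iff.1 (h1.trans_eq Cardinal.succ_aleph0.symm)
  have hIic : ∀ w : W, (Iic w).Countable := by
    intro w
    rw [← Iio_insert]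
    exact (hIio w).insert w
  have hunc : ¬ (univ : Set W).Countable := by
    rw [← Cardinal.le_aleph0_iff_set_countable, Cardinal.mk_univ, hWcard]
    exact not_le.2 Cardinal.aleph0_lt_aleph_one
  have hbdd : ∀ g : ℕ → W, ∃ a : W, ∀ n, g n ≤ a := by
    intro g
    by_contra hcon
    push Not at hcon
    apply hunc
    refine (countable_iUnion fun n => hIio (g n)).mono ?_
    intro a _
    obtain ⟨n, hn⟩ := hcon a
    exact mem_iUnion.2 ⟨n, hn⟩
  obtain ⟨e⟩ : Nonempty (W ≃ W × (W × (ℚ × ℚ × ℚ))) := by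
    apply Cardinal.eq.1
    have hq : Cardinal.mk (ℚ × ℚ × ℚ) = Cardinal.aleph0 := Cardinal.mk_eq_aleph0 _
    simp only [Cardinal.mk_prod, Cardinal.lift_id]
    simp only [Cardinal.mk_prod, Cardinal.lift_id] at hq
    rw [hq, hWcard, Cardinal.mul_aleph0_eq (Cardinal.aleph0_le_aleph 1),
      Cardinal.mul_eq_self (Cardinal.aleph0_le_aleph 1)]
  refine core hIic hbdd (B := fun w => (f w : Set ℝ)) (fun w => h𝓑n _ (f w).2)
    (fun A hA => by
      obtain ⟨B, hB, hAB⟩ := h𝓑 A hA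
      exact ⟨f.symm ⟨B, hB⟩, by simpa using hAB⟩) hDc hD (fun w => (e w).2) ?_
  intro t a
  by_contra hcon
  push Not at hcon
  have hsub : (fun w : W => e.symm (w, t)) '' univ ⊆ Iio a := by
    rintro _ ⟨w, -, rfl⟩
    by_contra hw
    exact hcon _ (not_lt.1 hw) (by simp)
  have hinj : Function.Injective (fun w : W => e.symm (w, t)) := by
    intro w w' hww
    have := e.symm.injective hww
    exact (Prod.ext_iff.1 this).1
  exact hunc (((hIio a).mono hsub).preimage_of_injOn (hinj.injOn) |>.mono (by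
    intro w _
    exact mem_image_of_mem _ (mem_univ w)))

end Pool.Agent.Results.MP_e5f4bd_lc.GdeltaHullCofAlephOne
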