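import Pool.Agent.H83.HullMA

/-!
`MA(ℵ₁)` together with `ℵ₁ < 2^ℵ₀` refutes the existence of a monotone Borel hull operation on
the family of all Lebesgue null sets and all open sets (in particular on the Lebesgue measurable
sets).
-/

open MeasureTheory Set

namespace Pool.Agent.Results.MP_e5f4bd_lc.NoHullUnderMA

open Pool.Agent.H83.Hull

/-- Under `MA(ℵ₁)` and `ℵ₁ < 2^ℵ₀` there is no monotone Borel hull operation on the family
consisting of the Lebesgue null sets and the open sets. -/
theorem result (hMA : MartinsAxiomAt (Cardinal.aleph 1))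
    (hCH : (Cardinal.aleph 1 : Cardinal.{0}) < Cardinal.continuum) :
    ¬ ∃ ψ : Set ℝ → Set ℝ,
      IsMonotoneHull {A : Set ℝ | volume A = 0 ∨ IsOpen A} MeasurableSet ψ :=
  no_hull_nullOrOpen hMA hCH

end Pool.Agent.Results.MP_e5f4bd_lc.NoHullUnderMA
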